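import Pool.Agent.N507.EM.Losp1

/-!
Project EM (helper912), part 1 (helper507): few pairs of prime determinant are lost (S_LOSP).
Adaptation of `Pool.Agent.W465.EG.Loss` (helper465).
-/

set_option autoImplicit false

namespace Pool.Agent.N507.EM

open Finset Filter
open Pool.Agent.W78.GA Pool.Agent.N912.ED.W78EG Pool.Agent.N912.ED

variable {t c : ℤ} {f : ℕ} {χ : DirichletCharacter ℂ f}

/-- the pairs considered -/
structure Pp (s X : ℝ) (p : ℕ) (e : Qd t c × Qd t c) : Prop where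
  n1 : (nm e.1 : ℝ) ≤ X
  n2 : (nm e.2 : ℝ) ≤ X
  d : dt e.1 e.2 = p
  i : 0 < pp e.1 e.2
  l1 : s * X < (nm e.1 : ℝ)
  l2 : s * X < (nm e.2 : ℝ)

lemma Pp.pp_le (hF : Fd t c f χ) {s X : ℝ} {p : ℕ} {e : Qd t c × Qd t c} (h : Pp s X p e)
    (hX : 0 ≤ X) : (pp e.1 e.2 : ℝ) ≤ 2 * X := by
  by_contra hc
  push Not at hc
  have h1 := nm_nmR hF e.1 e.2
  have h3 : (0 : ℝ) ≤ f * (dt e.1 e.2 : ℝ) ^ 2 := by positivity
  have h4 : (nm e.1 : ℝ) * nm e.2 ≤ X * X := mul_le_mul h.n1 h.n2 (by positivity) hX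
  nlinarith

lemma Pp.pp_ge (hF : Fd t c f χ) {s X : ℝ} {p : ℕ} {e : Qd t c × Qd t c} (h : Pp s X p e)
    (hp : 0 < p) (hs : f * p ≤ s * X) : s * X ≤ (pp e.1 e.2 : ℝ) := by
  by_contra hc
  push Not at hc
  have hf3 : (3 : ℝ) ≤ f := by exact_mod_cast hF.three
  have hp1 : (1 : ℝ) ≤ p := by exact_mod_cast hp
  have h1 := nm_nmR hF e.1 e.2
  rw [h.d] at h1
  have h2 : (0 : ℝ) < pp e.1 e.2 := by exact_mod_cast h.i
  have h3 : (pp e.1 e.2 : ℝ) ^ 2 < (s * X) ^ 2 := by nlinarith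
  have hsX : 0 < s * X := lt_of_lt_of_le (by positivity) hs
  have h4 : (s * X) * (s * X) < (nm e.1 : ℝ) * nm e.2 :=
    mul_lt_mul'' h.l1 h.l2 hsX.le hsX.le
  push_cast at h1
  have h5 : (f : ℝ) * (p : ℝ) ^ 2 ≤ (s * X) ^ 2 := by
    have e1 : (f : ℝ) * (p : ℝ) ^ 2 ≤ (f * p) * (f * p) := by nlinarith
    have e2 : ((f : ℝ) * p) * (f * p) ≤ (s * X) * (s * X) :=
      mul_le_mul hs hs (by positivity) hsX.le
    nlinarith
  nlinarith

/-- a vector with determinant zero with a primitive vector is a multiple -/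
lemma mul_of_dt {z u : Qd t c} (hz : prim z) (h : dt z u = 0) :
    ∃ k : ℤ, u.re = k * z.re ∧ u.im = k * z.im := by
  unfold prim at hz
  have hz' : IsCoprime z.re z.im := Int.isCoprime_iff_gcd_eq_one.2 hz
  obtain ⟨x, y, hxy⟩ := hz'
  unfold dt at h
  refine ⟨x * u.re + y * u.im, ?_, ?_⟩
  · linear_combination (-u.re) * hxy - y * h
  · linear_combination (-u.im) * hxy + x * h

/-- partners of a primitive vector -/
lemma partner (hF : Fd t c f χ) {z : Qd t c} (hz : prim z) {m : ℤ} {U : ℝ}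
    (W : Finset (Qd t c)) (hW : ∀ w ∈ W, dt z w = m ∧ 0 < pp z w ∧
      (pp z w : ℝ) ≤ U * (2 * nm z)) : W.card ≤ ⌊U⌋₊ + 1 := by
  classical
  have hD := hD_of hF
  have hn : (0 : ℝ) < nm z := nm_posR hD (prim_ne_zero hz)
  set F : Qd t c → ℕ := fun w => ⌊(pp z w : ℝ) / (2 * nm z)⌋₊ with hFd
  have hmap : ∀ w ∈ W, F w ∈ range (⌊U⌋₊ + 1) := by
    intro w hw
    obtain ⟨h1, h2, h3⟩ := hW w hw
    rw [mem_range, Nat.lt_succ_iff]
    apply Nat.floor_le_floor
    rw [div_le_iff₀ (by positivity)]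
    exact h3
  have hinj : ∀ v ∈ W, ∀ w ∈ W, F v = F w → v = w := by
    intro v hv w hw hvw
    obtain ⟨h1, h2, h3⟩ := hW v hv
    obtain ⟨k1, k2, k3⟩ := hW w hw
    have h2' : (0 : ℝ) < pp z v := by exact_mod_cast h2
    have k2' : (0 : ℝ) < pp z w := by exact_mod_cast k2
    have hA1 : 0 ≤ (pp z v : ℝ) / (2 * nm z) := by positivity
    have hA2 : 0 ≤ (pp z w : ℝ) / (2 * nm z) := by positivity
    have hfl : |(pp z v : ℝ) / (2 * nm z) - (pp z w : ℝ) / (2 * nm z)| < 1 := by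
      have e1 := Nat.floor_le hA1
      have e2 := Nat.lt_floor_add_one ((pp z v : ℝ) / (2 * nm z))
      have e3 := Nat.floor_le hA2
      have e4 := Nat.lt_floor_add_one ((pp z w : ℝ) / (2 * nm z))
      have e5 : (⌊(pp z v : ℝ) / (2 * nm z)⌋₊ : ℝ) = (⌊(pp z w : ℝ) / (2 * nm z)⌋₊ : ℝ) := by
        have : F v = F w := hvw
        rw [hFd] at this
        simp only at this
        rw [this]
      rw [abs_lt]
      constructor <;> linarith
    have h0 : dt z (v - w) = 0 := by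
      have e1 : dt z (v - w) = dt z v - dt z w := by
        simp only [dtZ, QuadraticAlgebra.re_sub, QuadraticAlgebra.im_sub]; ring
      rw [e1, h1, k1, sub_self]
    obtain ⟨k, hk1, hk2⟩ := mul_of_dt hz h0
    have h5 : pp z v - pp z w = 2 * (k * nm z) := by
      have e1 : pp z v - pp z w = pp z (v - w) := by
        simp only [ppZ, QuadraticAlgebra.re_sub, QuadraticAlgebra.im_sub]; ring
      rw [e1, ppZ, hk1, hk2, nmZ hD]; ring
    have h5R : (pp z v : ℝ) - pp z w = 2 * (k * nm z) := by exact_mod_cast h5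
    have h6 : (pp z v : ℝ) / (2 * nm z) - (pp z w : ℝ) / (2 * nm z) = k := by
      rw [← sub_div, h5R]
      field_simp
    rw [h6] at hfl
    have h7 : k = 0 := by
      have : |k| < 1 := by exact_mod_cast hfl
      rwa [Int.abs_lt_one_iff] at this
    rw [h7, zero_mul] at hk1 hk2
    rw [QuadraticAlgebra.re_sub] at hk1
    rw [QuadraticAlgebra.im_sub] at hk2
    exact QuadraticAlgebra.ext (by linarith) (by linarith)
  have := card_le_card_of_injOn F hmap hinj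
  rwa [card_range] at this

/-- partners of primitive vectors `e.1` -/
lemma partner1 (hF : Fd t c f χ) {s X : ℝ} {p : ℕ} (hX : 0 < X) (hs0 : 0 < s)
    (D : Finset (Qd t c × Qd t c)) (V : Finset (Qd t c)) (h : ∀ e ∈ D, Pp s X p e)
    (hpr : ∀ e ∈ D, prim e.1) (hV : ∀ e ∈ D, e.1 ∈ V) :
    D.card ≤ (⌊1 / s⌋₊ + 1) * V.card := by
  classical
  apply card_le_mul_card_image_of_maps_to (f := Prod.fst) hV
  intro v _
  have e1 : ((D.filter (fun e => e.1 = v)).image Prod.snd).card =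
      (D.filter (fun e => e.1 = v)).card := by
    apply card_image_of_injOn
    intro e he f hf hef
    rw [mem_coe, mem_filter] at he hf
    exact Prod.ext (by rw [he.2, hf.2]) hef
  rw [← e1]
  rcases (D.filter (fun e => e.1 = v)).eq_empty_or_nonempty with h0 | ⟨e₀, he₀⟩
  · rw [h0]; simp
  rw [mem_filter] at he₀
  have hv : prim v := by rw [← he₀.2]; exact hpr _ he₀.1
  refine partner hF hv (m := p) _ fun w hw => ?_
  rw [mem_image] at hw
  obtain ⟨e, he, rfl⟩ := hw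
  rw [mem_filter] at he
  obtain ⟨he, rfl⟩ := he
  have hp := h e he
  refine ⟨hp.d, hp.i, (hp.pp_le hF hX.le).trans ?_⟩
  rw [div_mul_eq_mul_div, le_div_iff₀ hs0]
  nlinarith [hp.l1]

/-- the vectors whose partner has determinant `p` and which are not primitive -/
lemma nonprim {p : ℕ} (hp : p.Prime) {z w : Qd t c} (h : dt z w = p) (hz : ¬ prim z) :
    ∃ z' : Qd t c, z.re = p * z'.re ∧ z.im = p * z'.im ∧ dt z' w = 1 := by
  have hpZ : (p : ℤ) ≠ 0 := by exact_mod_cast hp.ne_zero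
  have h1 : (Int.gcd z.re z.im : ℤ) ∣ (p : ℤ) := by
    rw [← h]
    unfold dt
    exact dvd_sub ((Int.gcd_dvd_left ..).mul_right _) ((Int.gcd_dvd_right ..).mul_right _)
  have h2 : Int.gcd z.re z.im ∣ p := by exact_mod_cast h1
  have h3 : Int.gcd z.re z.im = p := by
    rcases (Nat.dvd_prime hp).1 h2 with h3 | h3
    · exact absurd h3 hz
    · exact h3
  obtain ⟨a, ha⟩ : (p : ℤ) ∣ z.re := by
    rw [← h3]; exact Int.gcd_dvd_left ..
  obtain ⟨b, hb⟩ : (p : ℤ) ∣ z.im := by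
    rw [← h3]; exact Int.gcd_dvd_right ..
  refine ⟨⟨a, b⟩, ha, hb, ?_⟩
  have h4 : (p : ℤ) * dt (⟨a, b⟩ : Qd t c) w = p * 1 := by
    have h5 : (p : ℤ) * dt (⟨a, b⟩ : Qd t c) w = dt z w := by
      simp only [dtZ]
      rw [ha, hb]; ring
    rw [mul_one, h5, h]
  exact mul_left_cancel₀ hpZ h4

/-- few pairs with a vector which is not primitive: the general form -/
lemma npcount (hF : Fd t c f χ) {s X : ℝ} {p : ℕ} (hp : p.Prime) (hX : 0 < X) (hs0 : 0 < s)
    (D : Finset (Qd t c × Qd t c)) (φ ψ : Qd t c × Qd t c → Qd t c) (τ : ℤ)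
    (hτ : τ = 1 ∨ τ = -1) (hinj : ∀ e e' : Qd t c × Qd t c, φ e = φ e' → ψ e = ψ e' → e = e')
    (h : ∀ e ∈ D, (nm (φ e) : ℝ) ≤ X ∧ dt (φ e) (ψ e) = τ * p ∧ 0 < pp (φ e) (ψ e) ∧
      (pp (φ e) (ψ e) : ℝ) ≤ 2 * X ∧ s * X < (nm (φ e) : ℝ) ∧ ¬ prim (φ e)) :
    (D.card : ℝ) ≤ (1 / s + 1) * (16 * (X / p)) := by
  classical
  have hD := hD_of hF
  have hpR : (0 : ℝ) < p := by exact_mod_cast hp.pos
  have hp1 : (1 : ℝ) ≤ p := by exact_mod_cast hp.one_le
  have hpZ : (0 : ℤ) < p := by exact_mod_cast hp.pos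
  -- the reduced vectors
  have red : ∀ e ∈ D, ∃ z' : Qd t c, (φ e).re = p * z'.re ∧ (φ e).im = p * z'.im ∧
      dt z' (ψ e) = τ := by
    intro e he
    obtain ⟨-, h2, -, -, -, h6⟩ := h e he
    rcases hτ with hτ | hτ
    · obtain ⟨z', k1, k2, k3⟩ := nonprim hp (w := ψ e) (by rw [h2, hτ, one_mul]) h6
      exact ⟨z', k1, k2, by rw [k3, hτ]⟩
    · obtain ⟨z', k1, k2, k3⟩ := nonprim hp (w := -ψ e) (z := φ e) (by
        have e1 : dt (φ e) (-ψ e) = -dt (φ e) (ψ e) := by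
          simp only [dtZ, QuadraticAlgebra.re_neg, QuadraticAlgebra.im_neg]; ring
        rw [e1, h2, hτ]; ring) h6
      refine ⟨z', k1, k2, ?_⟩
      have e1 : dt z' (-ψ e) = -dt z' (ψ e) := by
        simp only [dtZ, QuadraticAlgebra.re_neg, QuadraticAlgebra.im_neg]; ring
      rw [e1] at k3
      rw [hτ]; linarith
  have nmred : ∀ z z' : Qd t c, z.re = p * z'.re → z.im = p * z'.im →
      (nm z : ℝ) = (p : ℝ) ^ 2 * nm z' := by
    intro z z' h1 h2
    rw [nmR hD, nmR hD, h1, h2]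
    push_cast
    ring
  set A : Finset (Qd t c) := D.image φ with hA
  have hAc : (A.card : ℝ) ≤ 16 * (X / (p : ℝ) ^ 2) := by
    have h1 : A ⊆ (ball t c (X / (p : ℝ) ^ 2)).image (fun u => ((p : ℕ) : Qd t c) * u) := by
      intro v hv
      rw [hA, mem_image] at hv
      obtain ⟨e, he, rfl⟩ := hv
      obtain ⟨z', k1, k2, k3⟩ := red e he
      rw [mem_image]
      refine ⟨z', ?_, ?_⟩
      · rw [mem_ball hD]
        constructor
        · rw [one_le_nm hD]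
          rintro rfl
          unfold dt at k3
          simp at k3
          rcases hτ with hτ | hτ <;> omega
        · rw [le_div_iff₀ (by positivity)]
          have := nmred _ _ k1 k2
          have h2 := (h e he).1
          rw [this] at h2
          linarith
      · apply QuadraticAlgebra.ext
        · simp only [QuadraticAlgebra.re_mul, QuadraticAlgebra.re_natCast,
            QuadraticAlgebra.im_natCast]
          rw [k1]; ring
        · simp only [QuadraticAlgebra.im_mul, QuadraticAlgebra.re_natCast,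
            QuadraticAlgebra.im_natCast]
          rw [k2]; ring
    have h2 : A.card ≤ (ball t c (X / (p : ℝ) ^ 2)).card := (card_le_card h1).trans card_image_le
    have h3 : (A.card : ℝ) ≤ (ball t c (X / (p : ℝ) ^ 2)).card := by exact_mod_cast h2
    exact h3.trans (card_ball hF (by positivity))
  have hDc : D.card ≤ (⌊(p : ℝ) / s⌋₊ + 1) * A.card := by
    apply card_le_mul_card_image_of_maps_to (f := φ) (fun e he => mem_image_of_mem _ he)
    intro v _
    have e1 : ((D.filter (fun e => φ e = v)).image ψ).card =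
        (D.filter (fun e => φ e = v)).card := by
      apply card_image_of_injOn
      intro e he e' he' hef
      rw [mem_coe, mem_filter] at he he'
      exact hinj e e' (by rw [he.2, he'.2]) hef
    rw [← e1]
    rcases (D.filter (fun e => φ e = v)).eq_empty_or_nonempty with h0 | ⟨e₀, he₀⟩
    · rw [h0]; simp
    rw [mem_filter] at he₀
    obtain ⟨z', k1, k2, k3⟩ := red e₀ he₀.1
    have hz' : prim z' := by
      rcases hτ with hτ | hτ
      · exact (prim_of_dt' (by rw [k3, hτ] : dt z' (ψ e₀) = 1)).1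
      · refine (prim_of_dt' (v := z') (u := -ψ e₀) ?_).1
        have e2 : dt z' (-ψ e₀) = -dt z' (ψ e₀) := by
          simp only [dtZ, QuadraticAlgebra.re_neg, QuadraticAlgebra.im_neg]; ring
        rw [e2, k3, hτ]; ring
    rw [he₀.2] at k1 k2
    refine partner hF hz' (m := τ) _ fun w hw => ?_
    rw [mem_image] at hw
    obtain ⟨e, he, rfl⟩ := hw
    rw [mem_filter] at he
    obtain ⟨he, hev⟩ := he
    obtain ⟨j1, j2, j3, j4, j5, j6⟩ := h e he
    rw [hev] at j1 j2 j3 j4 j5 j6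
    have d1 : dt v (ψ e) = p * dt z' (ψ e) := by
      simp only [dtZ]
      rw [k1, k2]; ring
    have d2 : pp v (ψ e) = p * pp z' (ψ e) := by
      simp only [ppZ]
      rw [k1, k2]; ring
    have d3 := nmred _ _ k1 k2
    refine ⟨?_, ?_, ?_⟩
    · rw [d1] at j2
      exact mul_left_cancel₀ hpZ.ne' (by rw [j2]; ring)
    · rw [d2] at j3
      exact pos_of_mul_pos_right j3 hpZ.le
    · rw [d2] at j4
      rw [d3] at j5
      push_cast at j4
      rw [div_mul_eq_mul_div, le_div_iff₀ hs0]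
      have j7 : (p : ℝ) * (pp z' (ψ e) * s) ≤ p * (p * (2 * nm z')) := by nlinarith
      exact le_of_mul_le_mul_left j7 hpR
  have hDR : (D.card : ℝ) ≤ (⌊(p : ℝ) / s⌋₊ + 1) * A.card := by exact_mod_cast hDc
  have hfl : (⌊(p : ℝ) / s⌋₊ : ℝ) ≤ p / s := Nat.floor_le (by positivity)
  calc (D.card : ℝ) ≤ (⌊(p : ℝ) / s⌋₊ + 1) * A.card := hDR
    _ ≤ ((1 / s + 1) * p) * (16 * (X / (p : ℝ) ^ 2)) := by
        apply mul_le_mul _ hAc (by positivity) (by positivity)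
        have : (p : ℝ) / s = 1 / s * p := by ring
        nlinarith
    _ = (1 / s + 1) * (16 * (X / p)) := by
        field_simp

lemma plk (hD : t ^ 2 < 4 * c) (x y b : Qd t c) :
    dt x y * pp b x = 2 * (dt b y * nm x) + dt x b * pp x y := by
  rw [nmZ hD]; simp only [ppZ, dtZ]; ring

lemma typeb (hF : Fd t c f χ) {s X : ℝ} {p : ℕ} {e : Qd t c × Qd t c} (he : Pp s X p e)
    (hp : 0 < p) (hX : 0 < s * X) (hs : f * p ≤ s * X) {b : Qd t c}
    (h1 : 0 < dt e.1 b) (h2 : 0 < dt b e.2) :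
    0 < pp b e.1 ∧ -(p / (s * X)) * pp b e.1 ≤ dt b e.1 ∧ (dt b e.1 : ℝ) ≤ 0 := by
  have hD := hD_of hF
  have hi := he.pp_ge hF hp hs
  have hpZ : (0 : ℤ) < p := by exact_mod_cast hp
  have hpR : (0 : ℝ) < p := by exact_mod_cast hp
  have e1 := plk hD e.1 e.2 b
  rw [he.d] at e1
  have hn0 : (0 : ℝ) < nm e.1 := hX.trans he.l1
  have hnZ : (0 : ℤ) < nm e.1 := by exact_mod_cast hn0
  have e4 : 0 < dt b e.2 * nm e.1 := mul_pos h2 hnZ
  have e6 : 0 < dt e.1 b * pp e.1 e.2 := mul_pos h1 he.i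
  have e5 : dt e.1 b * pp e.1 e.2 < p * pp b e.1 := by linarith
  have e7 : dt b e.1 = -dt e.1 b := dt_swap _ _
  refine ⟨?_, ?_, ?_⟩
  · have : 0 < p * pp b e.1 := e6.trans e5
    exact pos_of_mul_pos_right this hpZ.le
  · rw [e7]
    push_cast
    have e8 : (dt e.1 b : ℝ) * pp e.1 e.2 ≤ p * pp b e.1 := by exact_mod_cast e5.le
    have e9 : (0 : ℝ) < dt e.1 b := by exact_mod_cast h1
    have e10 : (dt e.1 b : ℝ) * (s * X) ≤ dt e.1 b * pp e.1 e.2 := by gcongr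
    have e11 : (dt e.1 b : ℝ) ≤ p / (s * X) * pp b e.1 := by
      rw [div_mul_eq_mul_div, le_div_iff₀ hX]
      linarith
    linarith
  · rw [e7]
    push_cast
    have e9 : (0 : ℝ) < dt e.1 b := by exact_mod_cast h1
    linarith

lemma edge_pp (hF : Fd t c f χ) {Y : ℝ} (hY : f ≤ Y) {e : Qd t c × Qd t c}
    (he : e ∈ edge t c Y) : 1 ≤ pp e.1 e.2 := by
  have hD := hD_of hF
  have hf3 : (3 : ℝ) ≤ f := by exact_mod_cast hF.three
  rw [mem_edge hD] at he
  obtain ⟨⟨⟨p1, n1⟩, ⟨p2, n2⟩⟩, hd, hs⟩ := he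
  by_contra hc
  push Not at hc
  have h1 : (nm (e.1 + e.2) : ℝ) = nm e.1 + nm e.2 + pp e.1 e.2 := by
    exact_mod_cast nm_add' hD e.1 e.2
  have h2 := nm_nmR hF e.1 e.2
  rw [hd] at h2
  push_cast at h2
  have h3 : pp e.1 e.2 ≤ 0 := by omega
  have h3R : (pp e.1 e.2 : ℝ) ≤ 0 := by exact_mod_cast h3
  have h4 : -(pp e.1 e.2 : ℝ) < nm e.1 := by linarith
  have h5 : -(pp e.1 e.2 : ℝ) < nm e.2 := by linarith
  have h6 : (-(pp e.1 e.2 : ℝ)) * (-(pp e.1 e.2 : ℝ)) ≤ (nm e.1 : ℝ) * nm e.2 :=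
    mul_le_mul h4.le h5.le (by linarith) (by positivity)
  have h7 : 3 * ((nm e.1 : ℝ) * nm e.2) ≤ f := by nlinarith
  have a1 : (1 : ℝ) ≤ nm e.1 := by exact_mod_cast nm_pos hD (prim_ne_zero p1)
  have a2 : (1 : ℝ) ≤ nm e.2 := by exact_mod_cast nm_pos hD (prim_ne_zero p2)
  have h8 : (nm e.1 : ℝ) + nm e.2 ≤ nm e.1 * nm e.2 + 1 := by nlinarith
  linarith

lemma plk2 (hD : t ^ 2 < 4 * c) {a b : Qd t c} (h : dt a b = 1) (z : Qd t c) :
    pp a z = 2 * (dt z b * nm a) + dt a z * pp a b := by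
  have : dt a b * pp a z = 2 * (dt z b * nm a) + dt a z * pp a b := by
    rw [nmZ hD]; simp only [ppZ, dtZ]; ring
  rw [h, one_mul] at this
  exact this

/-- number of the vectors in the cone over an edge -/
lemma countc (hF : Fd t c f χ) {Y : ℝ} (hY : f ≤ Y) {g : Qd t c × Qd t c} (hg : g ∈ edge t c Y)
    {p : ℕ} {q : Qd t c} {Z : ℝ}
    (hp : 0 < p) (hq : nm q = p) (hZ : 0 < Z) (V : Finset (Qd t c))
    (hV : ∀ v ∈ V, prim v ∧ (nm v : ℝ) ≤ Z ∧ 0 < dt g.1 (q * v) ∧ 0 < dt (q * v) g.2) :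
    (V.card : ℝ) ≤ (1 + f) * Z / (Real.sqrt (nm g.1) * Real.sqrt (nm g.2)) + 1 := by
  have hD := hD_of hF
  have hf3 : (3 : ℝ) ≤ f := by exact_mod_cast hF.three
  have hi := edge_pp hF hY hg
  have hg' := (mem_edge hD).1 hg
  have hiR : (1 : ℝ) ≤ pp g.1 g.2 := by exact_mod_cast hi
  have ha : 0 < nm g.1 := nm_pos hD (prim_ne_zero hg'.1.1.1)
  have hb : 0 < nm g.2 := nm_pos hD (prim_ne_zero hg'.1.2.1)
  have haR : (0 : ℝ) < nm g.1 := by exact_mod_cast ha
  have hbR : (0 : ℝ) < nm g.2 := by exact_mod_cast hb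
  have key := sep hF (g := g.1) (q := q) (p := p) (Z := Z) (A := 0) (L := 1 / pp g.1 g.2) hp hq
    V hZ (by
      intro v hv
      obtain ⟨k1, k2, k3, k4⟩ := hV v hv
      have e1 := plk2 hD hg'.2.1 (q * v)
      have e2 : 0 < dt (q * v) g.2 * nm g.1 := mul_pos k4 (by exact_mod_cast ha)
      have e3 : 0 < dt g.1 (q * v) * pp g.1 g.2 := mul_pos k3 (by linarith)
      refine ⟨k1, k2, by linarith, ?_, ?_⟩
      · rw [zero_mul]; exact_mod_cast k3.le
      · rw [zero_add, div_mul_eq_mul_div, le_div_iff₀ (by linarith), one_mul]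
        have : dt g.1 (q * v) * pp g.1 g.2 ≤ pp g.1 (q * v) := by linarith
        exact_mod_cast this)
  have h1 : (V.card : ℝ) ≤ ⌊1 / (pp g.1 g.2 : ℝ) * (2 * Z)⌋₊ + 1 := by exact_mod_cast key
  have h2 : (⌊1 / (pp g.1 g.2 : ℝ) * (2 * Z)⌋₊ : ℝ) ≤ 1 / (pp g.1 g.2 : ℝ) * (2 * Z) :=
    Nat.floor_le (by positivity)
  have h3 := nm_nmR hF g.1 g.2
  rw [hg'.2.1] at h3
  have h4 : Real.sqrt (nm g.1) * Real.sqrt (nm g.2) ≤ (1 + f) / 2 * pp g.1 g.2 := by
    rw [← Real.sqrt_mul haR.le]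
    apply Real.sqrt_le_iff.2
    constructor
    · positivity
    · push_cast at h3
      have e1 : (1 : ℝ) ≤ (pp g.1 g.2 : ℝ) ^ 2 := by nlinarith
      have e2 : (f : ℝ) * 1 ≤ f * (pp g.1 g.2 : ℝ) ^ 2 := by gcongr
      have e3 : 4 * ((nm g.1 : ℝ) * nm g.2) ≤ (1 + f) * (pp g.1 g.2 : ℝ) ^ 2 := by nlinarith
      have e4 : (1 + (f : ℝ)) * (pp g.1 g.2 : ℝ) ^ 2 ≤ (1 + f) * (1 + f) * (pp g.1 g.2 : ℝ) ^ 2 := by
        gcongr
        nlinarith
      have e5 : ((1 + (f : ℝ)) / 2 * pp g.1 g.2) ^ 2 =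
          (1 + f) * (1 + f) * (pp g.1 g.2 : ℝ) ^ 2 / 4 := by ring
      rw [e5]
      linarith
  have h5 : 1 / (pp g.1 g.2 : ℝ) * (2 * Z) ≤
      (1 + f) * Z / (Real.sqrt (nm g.1) * Real.sqrt (nm g.2)) := by
    rw [div_mul_eq_mul_div, one_mul, div_le_div_iff₀ (by linarith)
      (mul_pos (Real.sqrt_pos.2 haR) (Real.sqrt_pos.2 hbR))]
    have e1 : 2 * Z * (Real.sqrt (nm g.1) * Real.sqrt (nm g.2)) ≤
        2 * Z * ((1 + f) / 2 * pp g.1 g.2) := by gcongr
    have e2 : 2 * Z * ((1 + f) / 2 * pp g.1 g.2) = (1 + f) * Z * pp g.1 g.2 := by ring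
    linarith
  linarith

lemma nm_add_le2 (hD : t ^ 2 < 4 * c) (a b : Qd t c) :
    (nm (a + b) : ℝ) ≤ 2 * nm a + 2 * nm b := by
  have h1 : (nm (a + b) : ℝ) + nm (a - b) = 2 * nm a + 2 * nm b := by
    rw [nmR hD, nmR hD, nmR hD, nmR hD]
    simp only [QuadraticAlgebra.re_add, QuadraticAlgebra.im_add, QuadraticAlgebra.re_sub,
      QuadraticAlgebra.im_sub]
    push_cast
    ring
  have h2 : (0 : ℝ) ≤ nm (a - b) := by positivity
  linarith

lemma fst_inj (hD : t ^ 2 < 4 * c) {Y : ℝ} :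
    Set.InjOn (Prod.fst : Qd t c × Qd t c → Qd t c) (edge t c Y : Finset (Qd t c × Qd t c)) := by
  intro e he f hf hef
  rw [mem_coe] at he hf
  have he' := (mem_edge hD).1 he
  have hf' := (mem_edge hD).1 hf
  set N : ℤ := |dt e.2 f.2| + 1 with hN
  have hN1 : 0 < N := by have := abs_nonneg (dt e.2 f.2); linarith
  have hN2 : 0 < N + dt e.2 f.2 := by have := neg_abs_le (dt e.2 f.2); linarith
  have hfd : dt e.1 f.2 = 1 := by rw [hef]; exact hf'.2.1
  set z : Qd t c := ⟨N * e.1.re + e.2.re, N * e.1.im + e.2.im⟩ with hz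
  have z1 : dt e.1 z = dt e.1 e.2 := by rw [hz]; simp only [dtZ]; ring
  have z2 : dt z e.2 = N * dt e.1 e.2 := by rw [hz]; simp only [dtZ]; ring
  have z3 : dt z f.2 = N * dt e.1 f.2 + dt e.2 f.2 := by rw [hz]; simp only [dtZ]; ring
  apply edge_unique hD he hf (z := z)
  · rw [z1, he'.2.1]; norm_num
  · rw [z2, he'.2.1]; linarith
  · rw [← hef, z1, he'.2.1]; norm_num
  · rw [z3, hfd]; linarith

lemma snd_inj (hD : t ^ 2 < 4 * c) {Y : ℝ} :
    Set.InjOn (Prod.snd : Qd t c × Qd t c → Qd t c) (edge t c Y : Finset (Qd t c × Qd t c)) := by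
  intro e he f hf hef
  rw [mem_coe] at he hf
  have he' := (mem_edge hD).1 he
  have hf' := (mem_edge hD).1 hf
  set N : ℤ := |dt f.1 e.1| + 1 with hN
  have hN1 : 0 < N := by have := abs_nonneg (dt f.1 e.1); linarith
  have hN2 : 0 < N + dt f.1 e.1 := by have := neg_abs_le (dt f.1 e.1); linarith
  have hfd : dt f.1 e.2 = 1 := by rw [hef]; exact hf'.2.1
  set z : Qd t c := ⟨e.1.re + N * e.2.re, e.1.im + N * e.2.im⟩ with hz
  have z1 : dt e.1 z = N * dt e.1 e.2 := by rw [hz]; simp only [dtZ]; ring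
  have z2 : dt z e.2 = dt e.1 e.2 := by rw [hz]; simp only [dtZ]; ring
  have z3 : dt f.1 z = N * dt f.1 e.2 + dt f.1 e.1 := by rw [hz]; simp only [dtZ]; ring
  apply edge_unique hD he hf (z := z)
  · rw [z1, he'.2.1]; linarith
  · rw [z2, he'.2.1]; norm_num
  · rw [z3, hfd]; linarith
  · rw [← hef, z2, he'.2.1]; norm_num

/-- sum over the bad edges -/
lemma sumE (hF : Fd t c f χ) {Y κ Z : ℝ} (hY : f ≤ Y) (hκ : 0 < κ) (hκ4 : κ ≤ 1 / 4) (hZ : 0 < Z)
    (E : Finset (Qd t c × Qd t c)) (φ ψ : Qd t c × Qd t c → Qd t c) (hE : ∀ g ∈ E, g ∈ edge t c Y)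
    (hφ : Set.InjOn φ (edge t c Y : Finset (Qd t c × Qd t c)))
    (hφψ : ∀ g ∈ E, (φ g = g.1 ∧ ψ g = g.2) ∨ (φ g = g.2 ∧ ψ g = g.1))
    (hb : ∀ g ∈ E, (nm (φ g) : ℝ) ≤ κ * Y) :
    ∑ g ∈ E, ((1 + f) * Z / (Real.sqrt (nm g.1) * Real.sqrt (nm g.2)) + 1) ≤
      128 * (1 + f) * Z * Real.sqrt κ + 16 * (κ * Y) := by
  classical
  have hD := hD_of hF
  have hf3 : (3 : ℝ) ≤ f := by exact_mod_cast hF.three
  have hY0 : 0 < Y := by linarith
  have hsY : 0 < Real.sqrt Y := Real.sqrt_pos.2 hY0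
  have h1 : ∀ g ∈ E, (1 + f) * Z / (Real.sqrt (nm g.1) * Real.sqrt (nm g.2)) + 1 ≤
      2 * (1 + f) * Z / Real.sqrt Y * (1 / Real.sqrt (nm (φ g))) + 1 := by
    intro g hg
    have hg' := (mem_edge hD).1 (hE g hg)
    have h2 := nm_add_le2 hD g.1 g.2
    have h3 := hb g hg
    have h3' : κ * Y ≤ 1 / 4 * Y := by gcongr
    have h4 : Y / 4 ≤ (nm (ψ g) : ℝ) := by
      rcases hφψ g hg with ⟨k1, k2⟩ | ⟨k1, k2⟩ <;> rw [k1] at h3 <;> rw [k2] <;>
        linarith [hg'.2.2]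
    have h5 : Real.sqrt Y / 2 ≤ Real.sqrt (nm (ψ g)) := by
      have : Real.sqrt (Y / 4) ≤ Real.sqrt (nm (ψ g)) := Real.sqrt_le_sqrt h4
      rw [Real.sqrt_div (by linarith), show (4 : ℝ) = 2 ^ 2 by norm_num,
        Real.sqrt_sq (by norm_num)] at this
      exact this
    have h6 : Real.sqrt (nm g.1) * Real.sqrt (nm g.2) =
        Real.sqrt (nm (φ g)) * Real.sqrt (nm (ψ g)) := by
      rcases hφψ g hg with ⟨k1, k2⟩ | ⟨k1, k2⟩ <;> rw [k1, k2]
      rw [mul_comm]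
    have ha : (0 : ℝ) < nm g.1 := nm_posR hD (prim_ne_zero hg'.1.1.1)
    have hb' : (0 : ℝ) < nm g.2 := nm_posR hD (prim_ne_zero hg'.1.2.1)
    have h7 : (0 : ℝ) < nm (φ g) := by
      rcases hφψ g hg with ⟨k1, k2⟩ | ⟨k1, k2⟩ <;> rw [k1] <;> assumption
    have h8 : 0 < Real.sqrt (nm (φ g)) := Real.sqrt_pos.2 h7
    rw [h6]
    have h9 : (1 + f) * Z / (Real.sqrt (nm (φ g)) * Real.sqrt (nm (ψ g))) ≤
        (1 + f) * Z / (Real.sqrt (nm (φ g)) * (Real.sqrt Y / 2)) := by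
      apply div_le_div_of_nonneg_left (by positivity) (by positivity)
      gcongr
    have h10 : (1 + f) * Z / (Real.sqrt (nm (φ g)) * (Real.sqrt Y / 2)) =
        2 * (1 + f) * Z / Real.sqrt Y * (1 / Real.sqrt (nm (φ g))) := by
      field_simp
    linarith
  have h2 : ∑ g ∈ E, (2 * (1 + f) * Z / Real.sqrt Y * (1 / Real.sqrt (nm (φ g))) + 1) =
      ∑ a ∈ E.image φ, (2 * (1 + f) * Z / Real.sqrt Y * (1 / Real.sqrt (nm a)) + 1) := by
    rw [sum_image]
    intro e he g hg heg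
    exact hφ (hE e he) (hE g hg) heg
  have h3 : E.image φ ⊆ ball t c (κ * Y) := by
    intro a ha
    rw [mem_image] at ha
    obtain ⟨g, hg, rfl⟩ := ha
    rw [mem_ball hD]
    refine ⟨?_, hb g hg⟩
    have hg' := (mem_edge hD).1 (hE g hg)
    have ha := nm_pos hD (prim_ne_zero hg'.1.1.1)
    have hb' := nm_pos hD (prim_ne_zero hg'.1.2.1)
    rcases hφψ g hg with ⟨k1, k2⟩ | ⟨k1, k2⟩ <;> rw [k1] <;> omega
  have h4 : ∑ a ∈ E.image φ, (2 * (1 + f) * Z / Real.sqrt Y * (1 / Real.sqrt (nm a)) + 1) ≤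
      ∑ a ∈ ball t c (κ * Y), (2 * (1 + f) * Z / Real.sqrt Y * (1 / Real.sqrt (nm a)) + 1) := by
    apply sum_le_sum_of_subset_of_nonneg h3
    intro a _ _
    positivity
  have h5 : ∑ a ∈ ball t c (κ * Y), (2 * (1 + f) * Z / Real.sqrt Y * (1 / Real.sqrt (nm a)) + 1) =
      2 * (1 + f) * Z / Real.sqrt Y * ∑ a ∈ ball t c (κ * Y), 1 / Real.sqrt (nm a) +
        (ball t c (κ * Y)).card := by
    rw [sum_add_distrib, mul_sum, sum_const, nsmul_eq_mul, mul_one]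
  have hκY : 0 ≤ κ * Y := by positivity
  have h6 := sum_inv' hF hκY
  have h7 := card_ball hF hκY
  have h8 : 2 * (1 + f) * Z / Real.sqrt Y * ∑ a ∈ ball t c (κ * Y), 1 / Real.sqrt (nm a) ≤
      2 * (1 + f) * Z / Real.sqrt Y * (64 * Real.sqrt (κ * Y)) := by gcongr
  have h9 : 2 * (1 + f) * Z / Real.sqrt Y * (64 * Real.sqrt (κ * Y)) =
      128 * (1 + f) * Z * Real.sqrt κ := by
    rw [Real.sqrt_mul hκ.le]
    field_simp
    ring
  calc ∑ g ∈ E, ((1 + f) * Z / (Real.sqrt (nm g.1) * Real.sqrt (nm g.2)) + 1)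
      ≤ ∑ g ∈ E, (2 * (1 + f) * Z / Real.sqrt Y * (1 / Real.sqrt (nm (φ g))) + 1) :=
        sum_le_sum h1
    _ ≤ 128 * (1 + f) * Z * Real.sqrt κ + 16 * (κ * Y) := by rw [h2]; linarith

/-- both vectors are in the cone over one good edge -/
def InG (K : ℕ) (κ : ℝ) (Q : ℕ) (X : ℝ) (e : Qd t c × Qd t c) : Prop :=
  ∃ g ∈ good t c K κ Q X, e.1 ∈ cone X g.1 g.2 ∧ e.2 ∈ cone X g.1 g.2

lemma classify (hF : Fd t c f χ) {K Q p : ℕ} {κ s X : ℝ} {e : Qd t c × Qd t c}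
    (he : Pp s X p e) (hY1 : f ≤ X / (K * Q)) (hYs : X / (K * Q) ≤ s * X)
    (hn : ¬ InG K κ Q X e) (h1 : prim e.1) (h2 : prim e.2) :
    (∃ b ∈ pball t c (X / (K * Q)), 0 < dt e.1 b ∧ 0 < dt b e.2) ∨
    (∃ g ∈ edge t c (X / (K * Q)), ((nm g.1 : ℝ) ≤ κ * (X / (K * Q)) ∨
      (nm g.2 : ℝ) ≤ κ * (X / (K * Q))) ∧ 0 < dt g.1 e.1 ∧ 0 < dt e.1 g.2) := by
  have hD := hD_of hF
  have l1 : X / (K * Q) < (nm e.1 : ℝ) := lt_of_le_of_lt hYs he.l1
  have l2 : X / (K * Q) < (nm e.2 : ℝ) := lt_of_le_of_lt hYs he.l2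
  obtain ⟨g, hg, k1, k2⟩ := exists_edge hF hY1 h1 l1
  have hg' := (mem_edge hD).1 hg
  rcases lt_trichotomy (dt g.2 e.2) 0 with h | h | h
  · right
    refine ⟨g, hg, ?_, k1, k2⟩
    by_contra hc
    push Not at hc
    apply hn
    refine ⟨g, ?_, ?_, ?_⟩
    · unfold good
      rw [mem_filter]
      exact ⟨hg, hc⟩
    · rw [mem_cone hD]
      exact ⟨⟨h1, he.n1⟩, k1, k2⟩
    · rw [mem_cone hD]
      have h3 : 0 < dt e.2 g.2 := by rw [dt_swap]; linarith
      refine ⟨⟨h2, he.n2⟩, ?_, h3⟩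
      have e1 : dt g.1 e.2 * dt e.1 g.2 = dt g.1 g.2 * dt e.1 e.2 +
          dt g.1 e.1 * dt e.2 g.2 := by
        simp only [dtZ]; ring
      rw [hg'.2.1, he.d] at e1
      have e2 : 0 < dt g.1 e.2 * dt e.1 g.2 := by
        rw [e1]
        have := mul_pos k1 h3
        have hp0 : (0 : ℤ) ≤ p := by positivity
        linarith
      exact pos_of_mul_pos_left e2 k2.le
  · exfalso
    have : (nm e.2 : ℝ) = nm g.2 := by
      rcases par_eq hg'.1.2.1 h2 h with h' | h'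
      · rw [h']
      · rw [h', nm_neg]
    linarith [hg'.1.2.2]
  · left
    refine ⟨g.2, ?_, k2, h⟩
    rw [mem_pball hD]
    exact hg'.1.2

lemma count (hF : Fd t c f χ) {K Q p : ℕ} {κ s X : ℝ} (hp : p.Prime) (hs0 : 0 < s) (hX : 0 < X)
    (hs : f * p ≤ s * X) (hκ : 0 < κ) (hκ4 : κ ≤ 1 / 4) (hY2 : f ≤ X / (K * Q))
    (hYs : X / (K * Q) ≤ s * X) (D : Finset (Qd t c × Qd t c)) (hDD : ∀ e ∈ D, Pp s X p e)
    (hn : ∀ e ∈ D, ¬ InG K κ Q X e) :
    (D.card : ℝ) ≤ 2 * ((1 / s + 1) * (16 * (X / p))) +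
      (⌊1 / s⌋₊ + 1) * (16 * (X / (K * Q)) * (2 * p / s + 1) +
      2 * (128 * (1 + f) * X * Real.sqrt κ + 16 * (κ * (X / (K * Q))))) := by
  classical
  have hD := hD_of hF
  have hf3 : (3 : ℝ) ≤ f := by exact_mod_cast hF.three
  have hpR : (0 : ℝ) < p := by exact_mod_cast hp.pos
  have hsX : 0 < s * X := by positivity
  set B : ℕ := ⌊1 / s⌋₊ + 1 with hB
  set Y : ℝ := X / (K * Q) with hYd
  set D1 : Finset (Qd t c × Qd t c) := D.filter (fun e => ¬ prim e.1) with hD1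
  set D2 : Finset (Qd t c × Qd t c) := D.filter (fun e => ¬ prim e.2) with hD2
  set D3 : Finset (Qd t c × Qd t c) := D.filter (fun e => prim e.1 ∧ prim e.2) with hD3
  have hcov : D.card ≤ D1.card + (D2.card + D3.card) := by
    have e1 : D ⊆ D1 ∪ (D2 ∪ D3) := by
      intro e he
      rw [mem_union, mem_union, hD1, hD2, hD3, mem_filter, mem_filter, mem_filter]
      by_cases q1 : prim e.1
      · by_cases q2 : prim e.2
        · right; right; exact ⟨he, q1, q2⟩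
        · right; left; exact ⟨he, q2⟩
      · left; exact ⟨he, q1⟩
    have e2 := card_le_card e1
    have e3 := card_union_le D1 (D2 ∪ D3)
    have e4 := card_union_le D2 D3
    omega
  have hD1c : (D1.card : ℝ) ≤ (1 / s + 1) * (16 * (X / p)) := by
    refine npcount hF hp hX hs0 D1 Prod.fst Prod.snd 1 (Or.inl rfl)
      (fun e e' h1 h2 => Prod.ext h1 h2) fun e he => ?_
    rw [hD1, mem_filter] at he
    have hP := hDD e he.1
    exact ⟨hP.n1, by rw [hP.d, one_mul], hP.i, hP.pp_le hF hX.le, hP.l1, he.2⟩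
  have hD2c : (D2.card : ℝ) ≤ (1 / s + 1) * (16 * (X / p)) := by
    refine npcount hF hp hX hs0 D2 Prod.snd Prod.fst (-1) (Or.inr rfl)
      (fun e e' h1 h2 => Prod.ext h2 h1) fun e he => ?_
    rw [hD2, mem_filter] at he
    have hP := hDD e he.1
    refine ⟨hP.n2, by rw [dt_swap, hP.d]; ring, by rw [pp_comm]; exact hP.i, ?_, hP.l2, he.2⟩
    rw [pp_comm]; exact hP.pp_le hF hX.le
  set Vb : Finset (Qd t c) := (pball t c Y).biUnion (fun b => (pball t c X).filter (fun v =>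
    0 < pp b v ∧ -(p / (s * X)) * pp b v ≤ dt b v ∧ (dt b v : ℝ) ≤ 0)) with hVb
  set E1 : Finset (Qd t c × Qd t c) := (edge t c Y).filter (fun g => (nm g.1 : ℝ) ≤ κ * Y) with hE1
  set E2 : Finset (Qd t c × Qd t c) := (edge t c Y).filter (fun g => (nm g.2 : ℝ) ≤ κ * Y) with hE2
  set W : Qd t c × Qd t c → Finset (Qd t c) := fun g => (pball t c X).filter (fun v =>
    0 < dt g.1 v ∧ 0 < dt v g.2) with hW
  have hVbc : (Vb.card : ℝ) ≤ 16 * Y * (2 * p / s + 1) := by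
    have h1 : Vb.card ≤ (pball t c Y).card * (⌊2 * p / s⌋₊ + 1) := by
      rw [hVb]
      apply card_biUnion_le_card_mul
      intro b _
      have key := sep hF (g := b) (q := 1) (p := 1) (Z := X) (A := -(p / (s * X)))
        (L := p / (s * X)) one_pos nm_one ((pball t c X).filter (fun v =>
          0 < pp b v ∧ -(p / (s * X)) * pp b v ≤ dt b v ∧
          (dt b v : ℝ) ≤ 0)) hX (by
          intro v hv
          rw [mem_filter, mem_pball hD] at hv
          obtain ⟨⟨k1, k2⟩, k3, k4, k5⟩ := hv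
          rw [one_mul]
          refine ⟨k1, k2, k3, k4, ?_⟩
          rw [neg_add_cancel, zero_mul]
          exact k5)
      have e2 : p / (s * X) * (2 * X) = 2 * p / s := by field_simp
      rwa [e2] at key
    have h2 : (Vb.card : ℝ) ≤ (pball t c Y).card * (⌊2 * p / s⌋₊ + 1) := by exact_mod_cast h1
    have h3 : ((pball t c Y).card : ℝ) ≤ 16 * Y := by
      refine le_trans ?_ (card_ball hF (by linarith))
      unfold pball
      exact_mod_cast card_filter_le _ _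
    have h4 : (⌊2 * (p : ℝ) / s⌋₊ : ℝ) ≤ 2 * p / s := Nat.floor_le (by positivity)
    refine h2.trans ?_
    gcongr
  have hWc : ∀ E : Finset (Qd t c × Qd t c), (∀ g ∈ E, g ∈ edge t c Y) →
      ((E.biUnion W).card : ℝ) ≤
      ∑ g ∈ E, ((1 + f) * X / (Real.sqrt (nm g.1) * Real.sqrt (nm g.2)) + 1) := by
    intro E hE
    have h1 : ((E.biUnion W).card : ℝ) ≤ ∑ g ∈ E, ((W g).card : ℝ) := by
      exact_mod_cast card_biUnion_le
    refine h1.trans (sum_le_sum ?_)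
    intro g hg
    apply countc hF hY2 (hE g hg) (q := 1) (p := 1) one_pos nm_one hX
    intro v hv
    rw [hW] at hv
    simp only at hv
    rw [mem_filter, mem_pball hD] at hv
    rw [one_mul]
    exact ⟨hv.1.1, hv.1.2, hv.2.1, hv.2.2⟩
  have hE1e : ∀ g ∈ E1, g ∈ edge t c Y := fun g hg => (mem_filter.1 hg).1
  have hE2e : ∀ g ∈ E2, g ∈ edge t c Y := fun g hg => (mem_filter.1 hg).1
  have h1 : ((E1.biUnion W).card : ℝ) ≤ 128 * (1 + f) * X * Real.sqrt κ + 16 * (κ * Y) :=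
    (hWc E1 hE1e).trans (sumE hF hY2 hκ hκ4 hX E1 Prod.fst Prod.snd hE1e (fst_inj hD)
      (fun g _ => Or.inl ⟨rfl, rfl⟩) (fun g hg => (mem_filter.1 hg).2))
  have h2 : ((E2.biUnion W).card : ℝ) ≤ 128 * (1 + f) * X * Real.sqrt κ + 16 * (κ * Y) :=
    (hWc E2 hE2e).trans (sumE hF hY2 hκ hκ4 hX E2 Prod.snd Prod.fst hE2e (snd_inj hD)
      (fun g _ => Or.inr ⟨rfl, rfl⟩) (fun g hg => (mem_filter.1 hg).2))
  set V1 : Finset (Qd t c) := Vb ∪ (E1.biUnion W ∪ E2.biUnion W) with hV1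
  have hV1c : (V1.card : ℝ) ≤ Vb.card + ((E1.biUnion W).card + (E2.biUnion W).card) := by
    have e2 := card_union_le Vb (E1.biUnion W ∪ E2.biUnion W)
    have e3 := card_union_le (E1.biUnion W) (E2.biUnion W)
    have e4 : V1.card ≤ Vb.card + ((E1.biUnion W).card + (E2.biUnion W).card) := by
      rw [hV1]; omega
    exact_mod_cast e4
  have hcover : ∀ e ∈ D3, e.1 ∈ V1 := by
    intro e he
    rw [hD3, mem_filter] at he
    obtain ⟨he, q1, q2⟩ := he
    have hP := hDD e he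
    rw [hV1, mem_union, mem_union]
    rcases classify hF hP hY2 hYs (hn e he) q1 q2 with ⟨b, hb, k1, k2⟩ | ⟨g, hg, hs', k1, k2⟩
    · left
      rw [hVb, mem_biUnion]
      refine ⟨b, hb, ?_⟩
      rw [mem_filter, mem_pball hD]
      exact ⟨⟨q1, hP.n1⟩, typeb hF hP hp.pos hsX hs k1 k2⟩
    · right
      rcases hs' with h | h
      · left
        rw [mem_biUnion]
        refine ⟨g, mem_filter.2 ⟨hg, h⟩, ?_⟩
        rw [hW]
        simp only
        rw [mem_filter, mem_pball hD]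
        exact ⟨⟨q1, hP.n1⟩, k1, k2⟩
      · right
        rw [mem_biUnion]
        refine ⟨g, mem_filter.2 ⟨hg, h⟩, ?_⟩
        rw [hW]
        simp only
        rw [mem_filter, mem_pball hD]
        exact ⟨⟨q1, hP.n1⟩, k1, k2⟩
  have hD3c : D3.card ≤ B * V1.card := by
    rw [hB]
    exact partner1 hF hX hs0 D3 V1 (fun e he => hDD e (mem_filter.1 he).1)
      (fun e he => (mem_filter.1 he).2.1) hcover
  have hD3R : (D3.card : ℝ) ≤ B * V1.card := by exact_mod_cast hD3c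
  have hcovR : (D.card : ℝ) ≤ D1.card + (D2.card + D3.card) := by exact_mod_cast hcov
  have hBR : (B : ℝ) = (⌊1 / s⌋₊ : ℝ) + 1 := by rw [hB]; push_cast; ring
  rw [← hBR]
  have hV1c2 : (V1.card : ℝ) ≤ 16 * Y * (2 * p / s + 1) +
      2 * (128 * (1 + f) * X * Real.sqrt κ + 16 * (κ * Y)) := by linarith
  have hD3R2 : (D3.card : ℝ) ≤ B * (16 * Y * (2 * p / s + 1) +
      2 * (128 * (1 + f) * X * Real.sqrt κ + 16 * (κ * Y))) := by
    refine hD3R.trans ?_
    gcongr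
  linarith

lemma fin_a {C D Z Q ε : ℝ} (hZ : 0 < Z) (hQ : 0 < Q) (h : 3 * C < Q * ε) (hD : D = C * Z) :
    D / Q ≤ ε / 3 * Z := by
  rw [div_le_iff₀ hQ, hD]
  have h1 := mul_le_mul_of_nonneg_right h.le hZ.le
  linarith

theorem losp (hF : Fd t c f χ) : S_LOSP t c := by
  classical
  have hD := hD_of hF
  have hf3 : (3 : ℝ) ≤ f := by exact_mod_cast hF.three
  intro s ε hs hε
  set B : ℝ := (⌊1 / s⌋₊ : ℝ) + 1 with hB
  have hB0 : 0 < B := by positivity
  obtain ⟨K₁, hK₁⟩ := exists_nat_gt (max (1 / s) (max 1 (48 * B * (4 / s + 1) / ε)))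
  refine ⟨K₁, fun K hK => ?_⟩
  have hKR : (K₁ : ℝ) ≤ K := by exact_mod_cast hK
  have hK1 : 1 / s < K := lt_of_lt_of_le (lt_of_le_of_lt (le_max_left _ _) hK₁) hKR
  have hK2 : 1 < (K : ℝ) := lt_of_lt_of_le (lt_of_le_of_lt
    ((le_max_left _ _).trans (le_max_right _ _)) hK₁) hKR
  have hK3 : 48 * B * (4 / s + 1) / ε < K := lt_of_lt_of_le (lt_of_le_of_lt
    ((le_max_right _ _).trans (le_max_right _ _)) hK₁) hKR
  have hK0 : (0 : ℝ) < K := by linarith
  refine ⟨min (1 / 4) ((ε / (960 * (1 + f) * B)) ^ 2), by positivity, fun κ hκ hκ' => ?_⟩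
  have hκ4 : κ ≤ 1 / 4 := hκ'.trans (min_le_left _ _)
  have hκs : Real.sqrt κ ≤ ε / (960 * (1 + f) * B) := by
    rw [Real.sqrt_le_left (by positivity)]
    exact hκ'.trans (min_le_right _ _)
  have hκκ : κ ≤ Real.sqrt κ := by
    rw [Real.le_sqrt' hκ]
    nlinarith
  obtain ⟨Q₀, hQ₀⟩ := exists_nat_gt (max 1 (96 * (1 / s + 1) / ε))
  refine ⟨Q₀, fun Q hQ => ?_⟩
  have hQR : (Q₀ : ℝ) ≤ Q := by exact_mod_cast hQ
  have hQ1 : (1 : ℝ) < Q := lt_of_lt_of_le (lt_of_le_of_lt (le_max_left _ _) hQ₀) hQR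
  have hQ2 : 96 * (1 / s + 1) / ε < (Q : ℝ) :=
    lt_of_lt_of_le (lt_of_le_of_lt (le_max_right _ _) hQ₀) hQR
  refine ⟨max (2 * f * Q / s) (f * (K * Q)), fun X hX p hpp hp1 hp2 => ?_⟩
  have hX1 : 2 * f * Q / s ≤ X := (le_max_left _ _).trans hX
  have hX2 : f * (K * Q) ≤ X := (le_max_right _ _).trans hX
  have hp1R : (Q : ℝ) < p := by exact_mod_cast hp1
  have hp2R : (p : ℝ) ≤ 2 * Q := by exact_mod_cast hp2
  have hpR : (0 : ℝ) < p := by linarith
  have hX0 : 0 < X := lt_of_lt_of_le (by positivity) hX2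
  have h1 := count hF (K := K) (Q := Q) (p := p) (κ := κ) (s := s) (X := X) hpp hs hX0
    (by
      have e1 : 2 * f * Q ≤ X * s := by rwa [div_le_iff₀ hs] at hX1
      have e2 : (f : ℝ) * p ≤ f * (2 * Q) := by gcongr
      linarith)
    hκ hκ4 (by rw [le_div_iff₀ (by positivity)]; exact hX2)
    (by
      rw [div_le_iff₀ (by positivity)]
      have e1 : 1 < s * K := by rwa [div_lt_iff₀ hs, mul_comm] at hK1
      have e2 : 1 * 1 ≤ (s * K) * Q := mul_le_mul e1.le hQ1.le zero_le_one (by positivity)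
      have e3 : X * 1 ≤ X * ((s * K) * Q) := by
        apply mul_le_mul_of_nonneg_left _ hX0.le
        linarith
      linarith)
    ((ball t c X ×ˢ ball t c X).filter (fun e => dt e.1 e.2 = p ∧ 0 < pp e.1 e.2 ∧
      s * X < (nm e.1 : ℝ) ∧ s * X < (nm e.2 : ℝ) ∧
      ¬ ∃ g ∈ good t c K κ Q X, e.1 ∈ cone X g.1 g.2 ∧ e.2 ∈ cone X g.1 g.2))
    (by
      intro e he
      rw [mem_filter, mem_product, mem_ball hD, mem_ball hD] at he
      obtain ⟨⟨⟨k1, k2⟩, ⟨k3, k4⟩⟩, k5, k6, k7, k8, k9⟩ := he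
      exact ⟨k2, k4, k5, k6, k7, k8⟩)
    (by
      intro e he
      rw [mem_filter] at he
      exact he.2.2.2.2.2)
  refine h1.trans ?_
  rw [← hB]
  have hYQ : X / (K * Q) ≤ X := by
    rw [div_le_iff₀ (by positivity)]
    have e1 : (1 : ℝ) * 1 ≤ K * Q := mul_le_mul hK2.le hQ1.le zero_le_one (by positivity)
    nlinarith
  have hXp : X / p ≤ X / Q := by
    apply div_le_div_of_nonneg_left hX0.le (by linarith) hp1R.le
  have t1 : 2 * ((1 / s + 1) * (16 * (X / p))) ≤ ε / 3 * X := by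
    have e1 : 2 * ((1 / s + 1) * (16 * (X / p))) ≤ 2 * ((1 / s + 1) * (16 * (X / Q))) := by gcongr
    have e2 : 2 * ((1 / s + 1) * (16 * (X / Q))) = (32 * (1 / s + 1)) * X / Q := by ring
    have e3 : (32 * (1 / s + 1)) * X / Q ≤ ε / 3 * X := by
      rw [div_lt_iff₀ hε] at hQ2
      exact fin_a (C := 32 * (1 / s + 1)) hX0 (by linarith) (by linarith) rfl
    linarith
  have t2 : B * (16 * (X / (K * Q)) * (2 * p / s + 1)) ≤ ε / 3 * X := by
    have e0 : 2 * (p : ℝ) / s + 1 ≤ (4 / s + 1) * Q := by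
      have e1 : 2 * (p : ℝ) / s ≤ 4 / s * Q := by
        rw [div_mul_eq_mul_div]
        exact div_le_div_of_nonneg_right (by linarith) hs.le
      linarith
    have e1 : B * (16 * (X / (K * Q)) * (2 * p / s + 1)) ≤
        B * (16 * (X / (K * Q)) * ((4 / s + 1) * Q)) := by gcongr
    have hQ0 : (Q : ℝ) ≠ 0 := by linarith
    have e2 : B * (16 * (X / (K * Q)) * ((4 / s + 1) * Q)) =
        (16 * B * (4 / s + 1)) * X / K := by
      field_simp
    have e3 : (16 * B * (4 / s + 1)) * X / K ≤ ε / 3 * X := by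
      rw [div_lt_iff₀ hε] at hK3
      exact fin_a (C := 16 * B * (4 / s + 1)) hX0 hK0 (by linarith) rfl
    linarith
  have t3 : B * (2 * (128 * (1 + f) * X * Real.sqrt κ + 16 * (κ * (X / (K * Q))))) ≤
      ε / 3 * X := by
    have e1 : κ * (X / (K * Q)) ≤ Real.sqrt κ * X := by gcongr
    have e2 : B * (2 * (128 * (1 + f) * X * Real.sqrt κ + 16 * (κ * (X / (K * Q))))) ≤
        B * (2 * (128 * (1 + f) * X * Real.sqrt κ + 16 * (Real.sqrt κ * X))) := by gcongr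
    have e3 : B * (2 * (128 * (1 + f) * X * Real.sqrt κ + 16 * (Real.sqrt κ * X))) =
        (256 * (1 + f) + 32) * (B * X * Real.sqrt κ) := by ring
    have e3' : (256 * (1 + (f : ℝ)) + 32) * (B * X * Real.sqrt κ) ≤
        (320 * (1 + f)) * (B * X * Real.sqrt κ) := by
      gcongr
      linarith
    have e4 : (320 * (1 + (f : ℝ))) * (B * X * Real.sqrt κ) ≤
        (320 * (1 + f)) * (B * X * (ε / (960 * (1 + f) * B))) := by gcongr
    have e5 : (320 * (1 + (f : ℝ))) * (B * X * (ε / (960 * (1 + f) * B))) = ε / 3 * X := by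
      field_simp
      ring
    linarith
  calc 2 * ((1 / s + 1) * (16 * (X / p))) + B * (16 * (X / (K * Q)) * (2 * p / s + 1) +
      2 * (128 * (1 + f) * X * Real.sqrt κ + 16 * (κ * (X / (K * Q)))))
      = 2 * ((1 / s + 1) * (16 * (X / p))) + B * (16 * (X / (K * Q)) * (2 * p / s + 1)) +
        B * (2 * (128 * (1 + f) * X * Real.sqrt κ + 16 * (κ * (X / (K * Q))))) := by ring
    _ ≤ ε * X := by linarith

end Pool.Agent.N507.EM
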