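import Pool.Agent.N912.ED.Stm4
import Pool.Agent.W78.GA.Basic

/-!
Project EM (helper912), part 1, basic lemmas (helper507). Port of `Pool.Agent.W465.EG.Loss1`
(helper465) to all imaginary quadratic orders: trace form, edges, separated directions, number of
points in a ball, existence of the edge over a direction.
-/

set_option autoImplicit false

namespace Pool.Agent.N507.EM

open Finset Filter
open Pool.Agent.W78.GA Pool.Agent.N912.ED.W78EG

variable {t c : ℤ} {f : ℕ} {χ : DirichletCharacter ℂ f}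

lemma hD_of (hF : Fd t c f χ) : t ^ 2 < 4 * c := by
  have h1 := hF.disc
  have h2 : (3 : ℤ) ≤ (f : ℤ) := by exact_mod_cast hF.three
  linarith

lemma nmZ (hD : t ^ 2 < 4 * c) (z : Qd t c) :
    (nm z : ℤ) = z.re ^ 2 + t * z.re * z.im + c * z.im ^ 2 := nm_cast hD z

lemma nmR (hD : t ^ 2 < 4 * c) (z : Qd t c) :
    (nm z : ℝ) = (z.re : ℝ) ^ 2 + t * z.re * z.im + c * (z.im : ℝ) ^ 2 := by
  have := nmZ hD z
  exact_mod_cast this

lemma ppZ (a b : Qd t c) :
    pp a b = 2 * (a.re * b.re) + t * (a.re * b.im + a.im * b.re) + 2 * c * (a.im * b.im) := by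
  unfold pp ip dt; ring

lemma dtZ (a b : Qd t c) : dt a b = a.re * b.im - a.im * b.re := rfl

/-- decomposition with respect to a basis of determinant one -/
lemma decomp {a b : Qd t c} (h : dt a b = 1) (z : Qd t c) :
    z.re = dt z b * a.re + dt a z * b.re ∧ z.im = dt z b * a.im + dt a z * b.im := by
  unfold dt at *
  constructor
  · linear_combination (-z.re) * h
  · linear_combination (-z.im) * h

lemma nm_add' (hD : t ^ 2 < 4 * c) (a b : Qd t c) :
    (nm (a + b) : ℤ) = nm a + nm b + pp a b := by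
  rw [nmZ hD, nmZ hD, nmZ hD, ppZ]
  simp only [QuadraticAlgebra.re_add, QuadraticAlgebra.im_add]
  ring

lemma inside_aux {m n A B q : ℤ} (hm : 1 ≤ m) (hn : 1 ≤ n) (hA0 : 0 ≤ A) (hB0 : 0 ≤ B)
    (hcA : -A ≤ q) (hcB : -B ≤ q) : A + B + q ≤ m ^ 2 * A + n ^ 2 * B + m * n * q := by
  have hmn : 1 ≤ m * n := by nlinarith
  have hm2 : 0 ≤ m ^ 2 - 1 := by nlinarith
  have hn2 : 0 ≤ n ^ 2 - 1 := by nlinarith
  have h4 : 0 ≤ m ^ 2 + n ^ 2 - 1 - m * n := by nlinarith [sq_nonneg (m - n)]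
  rcases le_total A B with hAB | hAB
  · have t1 : (n ^ 2 - 1) * A ≤ (n ^ 2 - 1) * B := mul_le_mul_of_nonneg_left hAB hn2
    have t2 : (m * n - 1) * (-A) ≤ (m * n - 1) * q := mul_le_mul_of_nonneg_left hcA (by linarith)
    have t3 : 0 ≤ (m ^ 2 + n ^ 2 - 1 - m * n) * A := mul_nonneg h4 hA0
    linarith
  · have t1 : (m ^ 2 - 1) * B ≤ (m ^ 2 - 1) * A := mul_le_mul_of_nonneg_left hAB hm2
    have t2 : (m * n - 1) * (-B) ≤ (m * n - 1) * q := mul_le_mul_of_nonneg_left hcB (by linarith)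
    have t3 : 0 ≤ (m ^ 2 + n ^ 2 - 1 - m * n) * B := mul_nonneg h4 hB0
    linarith

/-- vectors strictly inside the cone over an edge have large norm -/
lemma nm_inside (hD : t ^ 2 < 4 * c) {a b z : Qd t c} {Y : ℝ} (h : dt a b = 1)
    (ha : (nm a : ℝ) ≤ Y) (hb : (nm b : ℝ) ≤ Y)
    (hab : Y < (nm (a + b) : ℝ)) (h1 : 0 < dt a z) (h2 : 0 < dt z b) : Y < (nm z : ℝ) := by
  refine lt_of_lt_of_le hab ?_
  obtain ⟨e1, e2⟩ := decomp h z
  have hz : (nm z : ℤ) = dt z b ^ 2 * nm a + dt a z ^ 2 * nm b + dt z b * dt a z * pp a b := by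
    generalize dt z b = m at e1 e2
    generalize dt a z = n at e1 e2
    rw [nmZ hD, nmZ hD a, nmZ hD b, e1, e2, ppZ]; ring
  have hs : (nm (a + b) : ℤ) = nm a + nm b + pp a b := nm_add' hD a b
  have h3 : nm a < nm (a + b) := by
    have h3 : (nm a : ℝ) < nm (a + b) := lt_of_le_of_lt ha hab
    exact_mod_cast h3
  have h4 : nm b < nm (a + b) := by
    have h3 : (nm b : ℝ) < nm (a + b) := lt_of_le_of_lt hb hab
    exact_mod_cast h3
  have h3' : (nm a : ℤ) < nm (a + b) := by exact_mod_cast h3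
  have h4' : (nm b : ℤ) < nm (a + b) := by exact_mod_cast h4
  have key : (nm (a + b) : ℤ) ≤ nm z := by
    rw [hz, hs]
    exact inside_aux h2 h1 (by positivity) (by positivity) (by linarith) (by linarith)
  exact_mod_cast key

/-- two primitive vectors with determinant zero are equal up to sign -/
lemma par_eq {a b : Qd t c} (ha : prim a) (hb : prim b) (h : dt a b = 0) : b = a ∨ b = -a := by
  unfold prim at ha hb
  have ha' : IsCoprime a.re a.im := Int.isCoprime_iff_gcd_eq_one.2 ha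
  have hb' : IsCoprime b.re b.im := Int.isCoprime_iff_gcd_eq_one.2 hb
  obtain ⟨x, y, hxy⟩ := ha'
  obtain ⟨x', y', hxy'⟩ := hb'
  set k := x * b.re + y * b.im with hk
  unfold dt at h
  have e1 : b.re = k * a.re := by
    rw [hk]; linear_combination (-b.re) * hxy - y * h
  have e2 : b.im = k * a.im := by
    rw [hk]; linear_combination (-b.im) * hxy + x * h
  have hu : k * (x' * a.re + y' * a.im) = 1 := by
    calc k * (x' * a.re + y' * a.im) = x' * (k * a.re) + y' * (k * a.im) := by ring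
      _ = x' * b.re + y' * b.im := by rw [← e1, ← e2]
      _ = 1 := hxy'
  have hk1 : k = 1 ∨ k = -1 := Int.isUnit_iff.1 (IsUnit.of_mul_eq_one _ hu)
  rcases hk1 with h1 | h1
  · left
    apply QuadraticAlgebra.ext
    · rw [e1, h1, one_mul]
    · rw [e2, h1, one_mul]
  · right
    apply QuadraticAlgebra.ext
    · rw [e1, h1, QuadraticAlgebra.re_neg]; ring
    · rw [e2, h1, QuadraticAlgebra.im_neg]; ring

lemma mem_cone (hD : t ^ 2 < 4 * c) {X : ℝ} {a b z : Qd t c} :
    z ∈ cone X a b ↔ (prim z ∧ (nm z : ℝ) ≤ X) ∧ 0 < dt a z ∧ 0 < dt z b := by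
  unfold cone
  rw [mem_filter, mem_pball hD]

lemma mem_edge (hD : t ^ 2 < 4 * c) {Y : ℝ} {e : Qd t c × Qd t c} : e ∈ edge t c Y ↔
    ((prim e.1 ∧ (nm e.1 : ℝ) ≤ Y) ∧ (prim e.2 ∧ (nm e.2 : ℝ) ≤ Y)) ∧ dt e.1 e.2 = 1 ∧
      Y < (nm (e.1 + e.2) : ℝ) := by
  unfold edge
  rw [mem_filter, mem_product, mem_pball hD, mem_pball hD]

lemma dt_swap (a b : Qd t c) : dt a b = -dt b a := by unfold dt; ring

lemma dt_le_aux (hD : t ^ 2 < 4 * c) {Y : ℝ} {e g : Qd t c × Qd t c} (he : e ∈ edge t c Y)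
    (hg : g ∈ edge t c Y) {z : Qd t c}
    (h1 : 0 < dt e.1 z) (h2 : 0 < dt z e.2) (h3 : 0 < dt g.1 z) (h4 : 0 < dt z g.2) :
    dt e.1 g.1 ≤ 0 ∧ dt g.2 e.2 ≤ 0 := by
  rw [mem_edge hD] at he hg
  obtain ⟨⟨⟨pa, na⟩, ⟨pb, nb⟩⟩, hab, hY⟩ := he
  obtain ⟨⟨⟨pa', na'⟩, ⟨pb', nb'⟩⟩, hab', hY'⟩ := hg
  obtain ⟨e1, e2⟩ := decomp hab z
  constructor
  · by_contra hc
    push Not at hc
    have h5 : dt g.1 z = dt z e.2 * dt g.1 e.1 + dt e.1 z * dt g.1 e.2 := by
      unfold dt at *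
      linear_combination (g.1.re * z.im - g.1.im * z.re) * (-hab)
    rw [dt_swap g.1 e.1] at h5
    have h6 : 0 < dt g.1 e.2 := by
      by_contra h7
      push Not at h7
      nlinarith [mul_pos h2 hc, mul_nonneg h1.le (by linarith : 0 ≤ -dt g.1 e.2)]
    have := nm_inside hD hab na nb hY hc h6
    linarith
  · by_contra hc
    push Not at hc
    have h5 : dt z g.2 = dt z e.2 * dt e.1 g.2 + dt e.1 z * dt e.2 g.2 := by
      unfold dt at *
      linear_combination (z.re * g.2.im - z.im * g.2.re) * (-hab)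
    rw [dt_swap e.2 g.2] at h5
    have h6 : 0 < dt e.1 g.2 := by
      by_contra h7
      push Not at h7
      nlinarith [mul_pos h1 hc, mul_nonneg h2.le (by linarith : 0 ≤ -dt e.1 g.2)]
    have := nm_inside hD hab na nb hY h6 hc
    linarith

/-- the cones over different edges are disjoint -/
lemma edge_unique (hD : t ^ 2 < 4 * c) {Y : ℝ} {e g : Qd t c × Qd t c} (he : e ∈ edge t c Y)
    (hg : g ∈ edge t c Y) {z : Qd t c}
    (h1 : 0 < dt e.1 z) (h2 : 0 < dt z e.2) (h3 : 0 < dt g.1 z) (h4 : 0 < dt z g.2) : e = g := by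
  obtain ⟨k1, k2⟩ := dt_le_aux hD he hg h1 h2 h3 h4
  obtain ⟨k3, k4⟩ := dt_le_aux hD hg he h3 h4 h1 h2
  rw [mem_edge hD] at he hg
  have z1 : dt e.1 g.1 = 0 := by rw [dt_swap] at k3; linarith
  have z2 : dt e.2 g.2 = 0 := by rw [dt_swap] at k2; linarith
  apply Prod.ext
  · rcases par_eq he.1.1.1 hg.1.1.1 z1 with h | h
    · exact h.symm
    · exfalso
      rw [h] at h3
      have : dt (-e.1) z = -dt e.1 z := by unfold dt; simp; ring
      linarith
  · rcases par_eq he.1.2.1 hg.1.2.1 z2 with h | h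
    · exact h.symm
    · exfalso
      rw [h] at h4
      have : dt z (-e.2) = -dt z e.2 := by unfold dt; simp; ring
      linarith

/-- determinants are multiplied by the norm -/
lemma dt_mul (hD : t ^ 2 < 4 * c) (q v w : Qd t c) : dt (q * v) (q * w) = nm q * dt v w := by
  rw [nmZ hD]
  unfold dt
  simp only [QuadraticAlgebra.re_mul, QuadraticAlgebra.im_mul]
  ring

lemma pp_mul (hD : t ^ 2 < 4 * c) (q v w : Qd t c) : pp (q * v) (q * w) = nm q * pp v w := by
  rw [nmZ hD, ppZ, ppZ]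
  simp only [QuadraticAlgebra.re_mul, QuadraticAlgebra.im_mul]
  ring

lemma pp_comm (v w : Qd t c) : pp v w = pp w v := by rw [ppZ, ppZ]; ring

lemma nm_nm (hF : Fd t c f χ) (a b : Qd t c) :
    4 * ((nm a : ℤ) * nm b) = pp a b ^ 2 + f * dt a b ^ 2 := by
  have hD := hD_of hF
  have h1 : (f : ℤ) = 4 * c - t ^ 2 := by linarith [hF.disc]
  rw [nmZ hD, nmZ hD, ppZ, dtZ, h1]; ring

lemma nm_nmR (hF : Fd t c f χ) (a b : Qd t c) :
    4 * ((nm a : ℝ) * nm b) = (pp a b : ℝ) ^ 2 + f * (dt a b : ℝ) ^ 2 := by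
  exact_mod_cast nm_nm hF a b

lemma cross (hD : t ^ 2 < 4 * c) (g a b : Qd t c) :
    dt g a * pp g b - dt g b * pp g a = 2 * (nm g * dt b a) := by
  rw [nmZ hD]; simp only [ppZ, dtZ]; ring

/-- separated directions -/
lemma sep (hF : Fd t c f χ) {g q : Qd t c} {p : ℕ} {Z A L : ℝ} (hp : 0 < p) (hq : nm q = p)
    (V : Finset (Qd t c)) (hZ : 0 < Z)
    (hV : ∀ v ∈ V, prim v ∧ (nm v : ℝ) ≤ Z ∧ 0 < pp g (q * v) ∧
      A * pp g (q * v) ≤ dt g (q * v) ∧ (dt g (q * v) : ℝ) ≤ (A + L) * pp g (q * v)) :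
    V.card ≤ ⌊L * (2 * Z)⌋₊ + 1 := by
  classical
  have hD := hD_of hF
  set τ : Qd t c → ℝ := fun v => (dt g (q * v) : ℝ) / pp g (q * v) with hτ
  set F : Qd t c → ℕ := fun v => ⌊(τ v - A) * (2 * Z)⌋₊ with hFd
  have hpR : (0 : ℝ) < p := by exact_mod_cast hp
  have hfR : (0 : ℝ) ≤ f := by positivity
  have hmap : ∀ v ∈ V, F v ∈ range (⌊L * (2 * Z)⌋₊ + 1) := by
    intro v hv
    obtain ⟨h1, h2, h3, h4, h5⟩ := hV v hv
    have h3' : (0 : ℝ) < pp g (q * v) := by exact_mod_cast h3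
    rw [mem_range, Nat.lt_succ_iff]
    apply Nat.floor_le_floor
    apply mul_le_mul_of_nonneg_right _ (by positivity)
    have : τ v ≤ A + L := by rw [hτ]; simp only; rw [div_le_iff₀ h3']; exact h5
    linarith
  have hinj : ∀ v ∈ V, ∀ w ∈ V, F v = F w → v = w := by
    intro v hv w hw hvw
    by_contra hne
    obtain ⟨h1, h2, h3, h4, h5⟩ := hV v hv
    obtain ⟨k1, k2, k3, k4, k5⟩ := hV w hw
    have h3' : (0 : ℝ) < pp g (q * v) := by exact_mod_cast h3
    have k3' : (0 : ℝ) < pp g (q * w) := by exact_mod_cast k3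
    have hA1 : 0 ≤ (τ v - A) * (2 * Z) := by
      apply mul_nonneg _ (by positivity)
      have : A ≤ τ v := by rw [hτ]; simp only; rw [le_div_iff₀ h3']; exact h4
      linarith
    have hA2 : 0 ≤ (τ w - A) * (2 * Z) := by
      apply mul_nonneg _ (by positivity)
      have : A ≤ τ w := by rw [hτ]; simp only; rw [le_div_iff₀ k3']; exact k4
      linarith
    have hfl : |(τ v - A) * (2 * Z) - (τ w - A) * (2 * Z)| < 1 := by
      have e1 := Nat.floor_le hA1
      have e2 := Nat.lt_floor_add_one ((τ v - A) * (2 * Z))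
      have e3 := Nat.floor_le hA2
      have e4 := Nat.lt_floor_add_one ((τ w - A) * (2 * Z))
      have e5 : (⌊(τ v - A) * (2 * Z)⌋₊ : ℝ) = (⌊(τ w - A) * (2 * Z)⌋₊ : ℝ) := by
        have : F v = F w := hvw
        rw [hFd] at this
        simp only at this
        rw [this]
      rw [abs_lt]
      constructor <;> linarith
    have hd : dt w v ≠ 0 := by
      intro h0
      rcases par_eq k1 h1 h0 with h | h
      · exact hne h
      · rw [h] at h3
        have : pp g (q * -w) = - pp g (q * w) := by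
          rw [mul_neg, ppZ, ppZ]; simp only [QuadraticAlgebra.re_neg, QuadraticAlgebra.im_neg]; ring
        rw [this] at h3
        linarith
    have hd1 : (1 : ℝ) ≤ |(dt w v : ℝ)| := by
      have : 1 ≤ |dt w v| := Int.one_le_abs hd
      exact_mod_cast this
    have hg : g ≠ 0 := by
      rintro rfl
      rw [ppZ] at h3
      simp at h3
    have hgR : (0 : ℝ) < nm g := nm_posR hD hg
    have hc : (dt g (q * v) : ℝ) * pp g (q * w) - dt g (q * w) * pp g (q * v) =
        2 * (nm g * (p * dt w v)) := by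
      have := cross hD g (q * v) (q * w)
      rw [dt_mul hD, hq] at this
      exact_mod_cast this
    have hi1 : (pp g (q * v) : ℝ) ^ 2 ≤ 4 * (nm g * (p * Z)) := by
      have e1 := nm_nmR hF g (q * v)
      rw [nm_mul, hq] at e1
      push_cast at e1
      have e2 : (nm g : ℝ) * (p * nm v) ≤ nm g * (p * Z) := by gcongr
      have e3 : 0 ≤ (f : ℝ) * (dt g (q * v) : ℝ) ^ 2 := by positivity
      linarith
    have hi2 : (pp g (q * w) : ℝ) ^ 2 ≤ 4 * (nm g * (p * Z)) := by
      have e1 := nm_nmR hF g (q * w)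
      rw [nm_mul, hq] at e1
      push_cast at e1
      have e2 : (nm g : ℝ) * (p * nm w) ≤ nm g * (p * Z) := by gcongr
      have e3 : 0 ≤ (f : ℝ) * (dt g (q * w) : ℝ) ^ 2 := by positivity
      linarith
    have hi : (pp g (q * v) : ℝ) * pp g (q * w) ≤ 4 * (nm g * (p * Z)) := by
      nlinarith [sq_nonneg ((pp g (q * v) : ℝ) - pp g (q * w))]
    have hpos : (0 : ℝ) < pp g (q * v) * pp g (q * w) := mul_pos h3' k3'
    have hdiff : (τ v - A) * (2 * Z) - (τ w - A) * (2 * Z) =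
        (4 * (nm g * (p * Z))) * dt w v / (pp g (q * v) * pp g (q * w)) := by
      rw [hτ]
      simp only
      rw [div_sub' h3'.ne', div_sub' k3'.ne']
      rw [eq_div_iff hpos.ne']
      field_simp
      linear_combination 2 * hc
    rw [hdiff, abs_div, abs_of_pos hpos, abs_mul, abs_of_pos (by positivity), div_lt_one hpos] at hfl
    have : 4 * (nm g * (p * Z)) * 1 ≤ 4 * (nm g * (p * Z)) * |(dt w v : ℝ)| := by gcongr
    linarith
  have := card_le_card_of_injOn F hmap hinj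
  rwa [card_range] at this

lemma ball_empty (hD : t ^ 2 < 4 * c) {R : ℝ} (hR : R < 1) : ball t c R = ∅ := by
  apply eq_empty_of_forall_notMem
  intro z hz
  rw [mem_ball hD] at hz
  have : (1 : ℝ) ≤ nm z := by exact_mod_cast hz.1
  linarith [hz.2]

/-- coordinates of the elements of norm at most `R` -/
lemma coord (hF : Fd t c f χ) {R : ℝ} {z : Qd t c} (hz : (nm z : ℝ) ≤ R) :
    (z.re : ℝ) ^ 2 ≤ 9 / 4 * R ∧ (z.im : ℝ) ^ 2 ≤ 9 / 4 * R := by
  have hD := hD_of hF
  have h3 : (3 : ℝ) ≤ f := by exact_mod_cast hF.three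
  have h4 : 4 * (c : ℝ) = (t : ℝ) ^ 2 + f := by exact_mod_cast hF.disc
  rw [nmR hD] at hz
  have ht : (t : ℝ) = 0 ∨ (t : ℝ) = 1 := by
    rcases hF.tt with h | h
    · left; exact_mod_cast h
    · right; exact_mod_cast h
  have hc : (c : ℝ) = ((t : ℝ) ^ 2 + f) / 4 := by linarith
  rw [hc] at hz
  have hy : 0 ≤ ((f : ℝ) - 3) * (z.im : ℝ) ^ 2 :=
    mul_nonneg (by linarith) (sq_nonneg _)
  rcases ht with ht | ht <;> rw [ht] at hz
  · constructor
    · nlinarith [sq_nonneg (z.re : ℝ), sq_nonneg (z.im : ℝ)]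
    · nlinarith [sq_nonneg (z.re : ℝ), sq_nonneg (z.im : ℝ)]
  · constructor
    · nlinarith [sq_nonneg ((z.re : ℝ) + 2 * z.im), sq_nonneg (z.re : ℝ), sq_nonneg (z.im : ℝ)]
    · nlinarith [sq_nonneg (2 * (z.re : ℝ) + z.im), sq_nonneg (z.re : ℝ), sq_nonneg (z.im : ℝ)]

lemma card_ball (hF : Fd t c f χ) {R : ℝ} (hR : 0 ≤ R) : ((ball t c R).card : ℝ) ≤ 16 * R := by
  have hD := hD_of hF
  rcases lt_or_ge R 1 with h | h
  · rw [ball_empty hD h, card_empty]
    push_cast
    linarith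
  · set m : ℕ := ⌊3 / 2 * Real.sqrt R⌋₊ with hm
    have hs9 : Real.sqrt (9 / 4 * R) = 3 / 2 * Real.sqrt R := by
      rw [show (9 : ℝ) / 4 * R = (3 / 2) ^ 2 * R by ring, Real.sqrt_mul (by positivity),
        Real.sqrt_sq (by norm_num)]
    have h1 : (ball t c R).card ≤ (Icc (-(m : ℤ)) m ×ˢ Icc (-(m : ℤ)) m).card := by
      apply card_le_card_of_injOn (fun z => (z.re, z.im))
      · intro z hz
        rw [mem_coe, mem_ball hD] at hz
        have hz2 := coord hF hz.2
        have key : ∀ x : ℤ, (x : ℝ) ^ 2 ≤ 9 / 4 * R → -(m : ℤ) ≤ x ∧ x ≤ m := by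
          intro x hx
          rw [← abs_le]
          have h2 : |(x : ℝ)| ≤ Real.sqrt (9 / 4 * R) := Real.abs_le_sqrt hx
          rw [hs9] at h2
          have h3 : (|x| : ℤ).toNat ≤ m := by
            apply Nat.le_floor
            have : (((|x|).toNat : ℕ) : ℤ) = |x| := Int.toNat_of_nonneg (abs_nonneg x)
            have h4 : (((|x|).toNat : ℕ) : ℝ) = |(x : ℝ)| := by
              have h5 : ((((|x|).toNat : ℕ) : ℤ) : ℝ) = ((|x| : ℤ) : ℝ) := by rw [this]
              push_cast at h5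
              exact h5
            rw [h4]; exact h2
          omega
        rw [coe_product, Set.mem_prod, mem_coe, mem_coe, mem_Icc, mem_Icc]
        exact ⟨key z.re hz2.1, key z.im hz2.2⟩
      · intro z _ w _ hzw
        simp only [Prod.mk.injEq] at hzw
        exact QuadraticAlgebra.ext hzw.1 hzw.2
    rw [card_product, Int.card_Icc] at h1
    have h2 : ((m : ℤ) + 1 - -(m : ℤ)).toNat = 2 * m + 1 := by omega
    rw [h2] at h1
    have h3 : ((ball t c R).card : ℝ) ≤ (2 * m + 1) * (2 * m + 1) := by exact_mod_cast h1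
    have h4 : (m : ℝ) ≤ 3 / 2 * Real.sqrt R := Nat.floor_le (by positivity)
    have h5 : 1 ≤ Real.sqrt R := by rw [Real.one_le_sqrt]; exact h
    have h6 : Real.sqrt R * Real.sqrt R = R := Real.mul_self_sqrt hR
    have h7 : (0 : ℝ) ≤ m := by positivity
    have h8 : 2 * (m : ℝ) + 1 ≤ 4 * Real.sqrt R := by linarith
    nlinarith

lemma sum_inv (hF : Fd t c f χ) : ∀ n : ℕ, ∀ R : ℝ, 0 ≤ R → R < 4 ^ n →
    ∑ z ∈ ball t c R, 1 / Real.sqrt (nm z) ≤ 64 * Real.sqrt R := by
  have hD := hD_of hF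
  intro n
  induction n with
  | zero =>
    intro R h0 hR
    rw [pow_zero] at hR
    rw [ball_empty hD hR, sum_empty]
    positivity
  | succ n ih =>
    intro R h0 hR
    rcases lt_or_ge R 1 with h | h
    · rw [ball_empty hD h, sum_empty]
      positivity
    have h1 := ih (R / 4) (by positivity) (by rw [pow_succ] at hR; linarith)
    rw [← sum_filter_add_sum_filter_not (ball t c R) (fun z => (nm z : ℝ) ≤ R / 4)]
    have e1 : (ball t c R).filter (fun z => (nm z : ℝ) ≤ R / 4) = ball t c (R / 4) := by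
      ext z
      rw [mem_filter, mem_ball hD, mem_ball hD]
      constructor
      · rintro ⟨⟨h2, h3⟩, h4⟩; exact ⟨h2, h4⟩
      · rintro ⟨h2, h4⟩; exact ⟨⟨h2, by linarith⟩, h4⟩
    rw [e1]
    have hsq : Real.sqrt (R / 4) = Real.sqrt R / 2 := by
      rw [Real.sqrt_div h0]
      congr 1
      rw [show (4 : ℝ) = 2 ^ 2 by norm_num, Real.sqrt_sq (by norm_num)]
    have h5 : 1 ≤ Real.sqrt R := by rw [Real.one_le_sqrt]; exact h
    have h6 : Real.sqrt R * Real.sqrt R = R := Real.mul_self_sqrt h0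
    have h2 : ∑ z ∈ (ball t c R).filter (fun z => ¬ (nm z : ℝ) ≤ R / 4), 1 / Real.sqrt (nm z) ≤
        32 * Real.sqrt R := by
      have e2 : ∑ z ∈ (ball t c R).filter (fun z => ¬ (nm z : ℝ) ≤ R / 4), 1 / Real.sqrt (nm z) ≤
          ∑ z ∈ (ball t c R).filter (fun z => ¬ (nm z : ℝ) ≤ R / 4), 2 / Real.sqrt R := by
        apply sum_le_sum
        intro z hz
        rw [mem_filter] at hz
        have h7 : Real.sqrt (R / 4) ≤ Real.sqrt (nm z) := Real.sqrt_le_sqrt (by
          have := hz.2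
          push Not at this
          exact this.le)
        rw [hsq] at h7
        have : 1 / Real.sqrt (nm z) ≤ 1 / (Real.sqrt R / 2) := by
          apply one_div_le_one_div_of_le _ h7
          positivity
        rw [one_div_div] at this
        exact this
      rw [sum_const, nsmul_eq_mul] at e2
      have e3 : (((ball t c R).filter (fun z => ¬ (nm z : ℝ) ≤ R / 4)).card : ℝ) ≤ 16 * R := by
        refine le_trans ?_ (card_ball hF h0)
        exact_mod_cast card_filter_le _ _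
      have e4 : (((ball t c R).filter (fun z => ¬ (nm z : ℝ) ≤ R / 4)).card : ℝ) *
          (2 / Real.sqrt R) ≤ 16 * R * (2 / Real.sqrt R) := by gcongr
      have e5 : 16 * R * (2 / Real.sqrt R) = 32 * Real.sqrt R := by
        have : Real.sqrt R ≠ 0 := by positivity
        field_simp
        nlinarith
      linarith
    rw [hsq] at h1
    linarith

lemma sum_inv' (hF : Fd t c f χ) {R : ℝ} (hR : 0 ≤ R) :
    ∑ z ∈ ball t c R, 1 / Real.sqrt (nm z) ≤ 64 * Real.sqrt R := by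
  obtain ⟨n, hn⟩ := pow_unbounded_of_one_lt R (by norm_num : (1 : ℝ) < 4)
  exact sum_inv hF n R hR hn

lemma prim_of_dt' {v u : Qd t c} (h : dt v u = 1) : prim v ∧ prim u := by
  unfold dt at h
  constructor
  · refine Int.isCoprime_iff_gcd_eq_one.1 ⟨u.im, -u.re, by linear_combination h⟩
  · refine Int.isCoprime_iff_gcd_eq_one.1 ⟨-v.im, v.re, by linear_combination h⟩

lemma edge_aux (hD : t ^ 2 < 4 * c) {Y : ℝ} {z : Qd t c} (hz : prim z) (hzY : Y < nm z) :
    ∀ n : ℕ, ∀ a b : Qd t c,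
    dt a b = 1 → (nm a : ℝ) ≤ Y → (nm b : ℝ) ≤ Y → 0 < dt a z → 0 < dt z b →
    (dt a z + dt z b).toNat ≤ n → ∃ e ∈ edge t c Y, 0 < dt e.1 z ∧ 0 < dt z e.2 := by
  intro n
  induction n with
  | zero => intro a b _ _ _ h1 h2 h3; omega
  | succ n ih =>
    intro a b hab ha hb h1 h2 h3
    by_cases hY : Y < (nm (a + b) : ℝ)
    · refine ⟨(a, b), ?_, h1, h2⟩
      rw [mem_edge hD]
      exact ⟨⟨⟨(prim_of_dt' hab).1, ha⟩, ⟨(prim_of_dt' hab).2, hb⟩⟩, hab, hY⟩
    · push Not at hY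
      have d1 : dt a (a + b) = 1 := by
        refine Eq.trans ?_ hab
        simp only [dtZ, QuadraticAlgebra.re_add, QuadraticAlgebra.im_add]; ring
      have d2 : dt (a + b) b = 1 := by
        refine Eq.trans ?_ hab
        simp only [dtZ, QuadraticAlgebra.re_add, QuadraticAlgebra.im_add]; ring
      have d3 : dt (a + b) z = dt a z - dt z b := by
        simp only [dtZ, QuadraticAlgebra.re_add, QuadraticAlgebra.im_add]; ring
      have d4 : dt z (a + b) = dt z b - dt a z := by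
        simp only [dtZ, QuadraticAlgebra.re_add, QuadraticAlgebra.im_add]; ring
      rcases lt_trichotomy (dt a z) (dt z b) with h | h | h
      · apply ih a (a + b) d1 ha hY h1 (by rw [d4]; linarith)
        rw [d4]; omega
      · exfalso
        have h0 : dt (a + b) z = 0 := by rw [d3]; linarith
        have : (nm z : ℝ) = nm (a + b) := by
          rcases par_eq (prim_of_dt' d1).2 hz h0 with h' | h'
          · rw [h']
          · rw [h', nm_neg]
        linarith
      · apply ih (a + b) b d2 hY hb (by rw [d3]; linarith) h2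
        rw [d3]; omega

lemma exists_edge (hF : Fd t c f χ) {Y : ℝ} (hY : f ≤ Y) {z : Qd t c} (hz : prim z)
    (hzY : Y < nm z) : ∃ e ∈ edge t c Y, 0 < dt e.1 z ∧ 0 < dt z e.2 := by
  have hD := hD_of hF
  have h3 : (3 : ℝ) ≤ f := by exact_mod_cast hF.three
  have hcf : (c : ℝ) ≤ Y := by
    have h4 : 4 * (c : ℝ) = (t : ℝ) ^ 2 + f := by exact_mod_cast hF.disc
    have ht : (t : ℝ) = 0 ∨ (t : ℝ) = 1 := by
      rcases hF.tt with h | h
      · left; exact_mod_cast h
      · right; exact_mod_cast h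
    rcases ht with ht | ht <;> rw [ht] at h4 <;> linarith
  have hY1 : (1 : ℝ) ≤ Y := by linarith
  have m1 : ∀ x : ℤ, x ^ 2 = 1 → ((nm (⟨x, 0⟩ : Qd t c) : ℕ) : ℝ) ≤ Y := by
    intro x hx
    have : (nm (⟨x, 0⟩ : Qd t c) : ℤ) = 1 := by rw [nmZ hD]; simp only; linarith
    have h2 : nm (⟨x, 0⟩ : Qd t c) = 1 := by exact_mod_cast this
    rw [h2]
    push_cast
    exact hY1
  have m2 : ∀ x : ℤ, x ^ 2 = 1 → ((nm (⟨0, x⟩ : Qd t c) : ℕ) : ℝ) ≤ Y := by
    intro x hx
    have : (nm (⟨0, x⟩ : Qd t c) : ℤ) = c := by rw [nmZ hD]; simp only; rw [hx]; ring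
    have h2 : ((nm (⟨0, x⟩ : Qd t c) : ℕ) : ℝ) = c := by exact_mod_cast this
    rw [h2]
    exact hcf
  have hre : z.re ≠ 0 := by
    intro h
    have h1 : z.im ^ 2 = 1 := by
      unfold prim at hz
      rw [h, Int.gcd_zero_left] at hz
      rw [← Int.natAbs_sq, hz]; norm_num
    have h2 := m2 z.im h1
    have h4 : z = (⟨0, z.im⟩ : Qd t c) := QuadraticAlgebra.ext h rfl
    rw [← h4] at h2
    linarith
  have him : z.im ≠ 0 := by
    intro h
    have h1 : z.re ^ 2 = 1 := by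
      unfold prim at hz
      rw [h, Int.gcd_zero_right] at hz
      rw [← Int.natAbs_sq, hz]; norm_num
    have h2 := m1 z.re h1
    have h4 : z = (⟨z.re, 0⟩ : Qd t c) := QuadraticAlgebra.ext rfl h
    rw [← h4] at h2
    linarith
  rcases lt_or_gt_of_ne hre with h1 | h1 <;> rcases lt_or_gt_of_ne him with h2 | h2
  · exact edge_aux hD hz hzY _ (⟨-1, 0⟩ : Qd t c) (⟨0, -1⟩ : Qd t c) (by simp [dtZ])
      (m1 _ (by norm_num)) (m2 _ (by norm_num)) (by simp [dtZ]; linarith)
      (by simp [dtZ]; linarith) le_rfl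
  · exact edge_aux hD hz hzY _ (⟨0, 1⟩ : Qd t c) (⟨-1, 0⟩ : Qd t c) (by simp [dtZ])
      (m2 _ (by norm_num)) (m1 _ (by norm_num)) (by simp [dtZ]; linarith)
      (by simp [dtZ]; linarith) le_rfl
  · exact edge_aux hD hz hzY _ (⟨0, -1⟩ : Qd t c) (⟨1, 0⟩ : Qd t c) (by simp [dtZ])
      (m2 _ (by norm_num)) (m1 _ (by norm_num)) (by simp [dtZ]; linarith)
      (by simp [dtZ]; linarith) le_rfl
  · exact edge_aux hD hz hzY _ (⟨1, 0⟩ : Qd t c) (⟨0, 1⟩ : Qd t c) (by simp [dtZ])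
      (m1 _ (by norm_num)) (m2 _ (by norm_num)) (by simp [dtZ]; linarith)
      (by simp [dtZ]; linarith) le_rfl

end Pool.Agent.N507.EM
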